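import Pool.Agent.MP_c69980_ag.H43.Spec2

/-!
Discreteness of the periods, the lower bound for the dimension of a leaf, properness.
-/

set_option autoImplicit false

namespace Pool.Agent.MP_c69980_ag.H43

open MvPolynomial H60 Filter Topology Metric

/-- A complex differentiable map is strictly differentiable. -/
lemma disc_strict {E F : Type} [NormedAddCommGroup E] [NormedSpace ℂ E] [NormedAddCommGroup F]
    [NormedSpace ℂ F] {f : E → F} {f' : E →L[ℂ] F} {a : E} (h : HasFDerivAt f f' a)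
    (hd : ∀ᶠ x in 𝓝 a, DifferentiableAt ℂ f x) : HasStrictFDerivAt f f' a := by
  rw [hasStrictFDerivAt_iff_isLittleO, Asymptotics.isLittleO_iff]
  intro c hc
  obtain ⟨δ, hδ, H⟩ := Metric.eventually_nhds_iff.1
    (hd.and (h.isLittleO.bound (c := c / 4) (by positivity)))
  let g : E → F := fun z => f z - f a - f' (z - a)
  have hg : ∀ z, dist z a < δ → ‖g z‖ ≤ c / 4 * δ := fun z hz =>
    (H hz).2.trans (mul_le_mul_of_nonneg_left (by rw [← dist_eq_norm]; exact hz.le) (by positivity))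
  have hb : ball a (δ / 4) ∈ 𝓝 a := ball_mem_nhds a (by positivity)
  filter_upwards [prod_mem_nhds hb hb] with p hp
  have h1 : dist p.1 a < δ / 4 := hp.1
  have h2 : dist p.2 a < δ / 4 := hp.2
  have hs : ∀ z ∈ ball p.2 (δ / 2), dist z a < δ := fun z hz => by
    have := dist_triangle z p.2 a
    have h3 : dist z p.2 < δ / 2 := hz
    linarith
  have k := Complex.dist_le_div_mul_dist_of_mapsTo_ball (f := g) (c := p.2) (z := p.1)
    (R₁ := δ / 2) (R₂ := c / 2 * δ)
    (fun z hz => (((H (hs z hz)).1.sub_const _).sub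
      (f'.differentiableAt.comp z (differentiableAt_id.sub_const a))).differentiableWithinAt)
    (fun z hz => by
      have h3 := hg z (hs z hz)
      have h4 := hg p.2 (by linarith)
      have h5 := norm_sub_le (g z) (g p.2)
      rw [mem_closedBall, dist_eq_norm]
      linarith)
    (by
      have := dist_triangle_right p.1 p.2 a
      exact mem_ball.2 (by linarith))
  have e : g p.1 - g p.2 = f p.1 - f p.2 - f' (p.1 - p.2) := by
    simp only [g, map_sub]
    abel
  have e' : c / 2 * δ / (δ / 2) = c := by field_simp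
  rwa [dist_eq_norm, dist_eq_norm, e, e'] at k

/-- Independent coordinates of an injective linear map. -/
lemma disc_sel {V I : Type} [AddCommGroup V] [Module ℂ V] [FiniteDimensional ℂ V]
    (φ : I → V →ₗ[ℂ] ℂ) (h : ∀ v, (∀ i, φ i v = 0) → v = 0) (n : ℕ)
    (hn : n ≤ Module.finrank ℂ V) :
    ∃ e : Fin n → I, ∀ y : Fin n → ℂ, ∃ v, ∀ j, φ (e j) v = y j := by
  induction n with
  | zero => exact ⟨Fin.elim0, fun _ => ⟨0, fun j => j.elim0⟩⟩
  | succ n ih =>
    obtain ⟨e, he⟩ := ih (by omega)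
    have hk : LinearMap.ker (LinearMap.pi fun j => φ (e j)) ≠ ⊥ :=
      LinearMap.ker_ne_bot_of_finrank_lt (by simpa using hn)
    obtain ⟨v₀, h0, h1⟩ := Submodule.exists_mem_ne_zero_of_ne_bot hk
    have h2 : ∀ j, φ (e j) v₀ = 0 := fun j => congrFun (LinearMap.mem_ker.1 h0) j
    obtain ⟨i, hi⟩ : ∃ i, φ i v₀ ≠ 0 := not_forall.1 fun hh => h1 (h v₀ hh)
    refine ⟨Fin.cons i e, fun y => ?_⟩
    obtain ⟨v, hv⟩ := he (Fin.tail y)
    refine ⟨v + ((y 0 - φ i v) / φ i v₀) • v₀, fun j => ?_⟩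
    refine Fin.cases ?_ (fun j => ?_) j
    · simp only [Fin.cons_zero, map_add, map_smul, smul_eq_mul]
      field_simp
      ring
    · simp only [Fin.cons_succ, map_add, map_smul, h2, smul_zero, add_zero, hv]
      rfl

variable {t a M : ℕ} {w : Fin M → Option (Fin t)} {Θ : Pt t a → Fin M → ℂ}

lemma disc_diff (h : Differentiable ℂ Θ) {p : Pt t a} (c : Fin M) {b : Fin M} (hb : Θ p b ≠ 0) :
    DifferentiableAt ℂ (fun q => Θ q c / Θ q b) p := by
  simp only [div_eq_mul_inv]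
  exact (differentiableAt_pi.1 (h p) c).mul ((differentiableAt_pi.1 (h p) b).inv hb)

lemma disc_ratio (h : GA1 w Θ) {p q : Pt t a} {l : ℂ} (e : Θ p = l • Θ q) :
    l ≠ 0 ∧ ∀ c b, Θ p c / Θ p b = Θ q c / Θ q b := by
  have hl : l ≠ 0 := by
    rintro rfl
    obtain ⟨b, -, hb⟩ := h.blk p none
    exact hb (by simp [e])
  exact ⟨hl, fun c b => by rw [e]; exact mul_div_mul_left _ _ hl⟩

theorem sDisc : SDisc := by
  intro t a M w Θ h
  have hD : Disc Θ := by
    let I := Fin M × {b // Θ 0 b ≠ 0}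
    have hf : HasFDerivAt (fun q (i : I) => Θ q i.1 / Θ q i.2)
        (ContinuousLinearMap.pi fun i : I => fderiv ℂ (fun q => Θ q i.1 / Θ q i.2) 0) 0 :=
      hasFDerivAt_pi.2 fun i => (disc_diff h.hol i.1 i.2.2).hasFDerivAt
    obtain ⟨K, -, hK⟩ := LinearMap.exists_antilipschitzWith
      (ContinuousLinearMap.pi fun i : I => fderiv ℂ (fun q => Θ q i.1 / Θ q i.2) 0).toLinearMap
      (LinearMap.ker_eq_bot'.2 fun v hv => h.imm 0 v fun c b hb => congrFun hv (c, ⟨b, hb⟩))
    have h1 := hf.eventually_ne (c := fun i : I => Θ 0 i.1 / Θ 0 i.2) ⟨K, hK⟩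
    obtain ⟨ε, hε, H⟩ := Metric.eventually_nhds_iff.1 (eventually_nhdsWithin_iff.1 h1)
    refine ⟨ε, hε, fun x ⟨l, hl⟩ hx => by_contra fun hn => ?_⟩
    exact H (by simpa using hx) hn (funext fun i => (disc_ratio h.toGA1 hl).2 _ _)
  refine ⟨hD, ?_⟩
  obtain ⟨ε, hε, H⟩ := hD
  refine Set.PairwiseDisjoint.countable_of_isOpen (s := fun x => ball x (ε / 2))
    (fun x hx y hy hxy => Set.disjoint_left.2 fun z h1 h2 => hxy ?_) (fun _ _ => isOpen_ball)
    fun _ _ => nonempty_ball.2 (half_pos hε)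
  refine sub_eq_zero.1 (H _ (h.lsub x hx y hy) ?_)
  have h3 := dist_triangle_left x y z
  have h4 : dist z x < ε / 2 := h1
  have h5 : dist z y < ε / 2 := h2
  rw [← dist_eq_norm]
  linarith

theorem sLb : SLb := by
  intro t a M w Θ h q V n hD
  by_contra hn
  let I := Fin M × {b // Θ q b ≠ 0}
  obtain ⟨e, he⟩ := disc_sel (V := V) (I := I)
    (fun i => (fderiv ℂ (fun x => Θ x i.1 / Θ x i.2) q).toLinearMap ∘ₗ V.subtype)
    (fun v hv => Subtype.ext (h.imm q v fun c b hb => hv (c, ⟨b, hb⟩))) (n + 1) (by omega)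
  obtain ⟨F, hF, H⟩ := hD (fun j => (e j).1) fun j => (e j).2
  have : CompleteSpace V := FiniteDimensional.complete ℂ V
  let u : V → Pt t a := fun v => q + V.subtypeL v
  have hu : ∀ v, HasFDerivAt u V.subtypeL v := fun v => V.subtypeL.hasFDerivAt.const_add q
  have u0 : u 0 = q := by simp [u]
  let f : V → Fin (n + 1) → ℂ := fun v j => Θ (u v) (e j).1 / Θ (u v) (e j).2
  have h0 : ∀ᶠ v in 𝓝 (0 : V), ∀ j, Θ (u v) (e j).2 ≠ 0 := eventually_all.2 fun j =>
    (((continuous_apply _).comp h.hol.continuous).continuousAt.comp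
      (hu 0).continuousAt).eventually_ne (by simpa [u0] using (e j).2.2)
  have hf : HasFDerivAt f (ContinuousLinearMap.pi fun j =>
      (fderiv ℂ (fun x => Θ x (e j).1 / Θ x (e j).2) q).comp V.subtypeL) 0 :=
    hasFDerivAt_pi.2 fun j => HasFDerivAt.comp (0 : V) (g := fun x => Θ x (e j).1 / Θ x (e j).2)
      (by rw [u0]; exact (disc_diff h.hol (e j).1 (e j).2.2).hasFDerivAt) (hu 0)
  have hs := (disc_strict hf (h0.mono fun v hv => differentiableAt_pi.2 fun j =>
    (disc_diff h.hol (e j).1 (hv j)).comp v (hu v).differentiableAt)).map_nhds_eq_of_surj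
    (LinearMap.range_eq_top.2 fun y => (he y).imp fun v hv => funext hv)
  have h1 : ∀ᶠ y in 𝓝 (f 0), eval y F = 0 := by
    rw [← hs, eventually_map]
    exact h0.mono fun v hv => H (u v) (by simp [u]) hv
  obtain ⟨ε, hε, H1⟩ := Metric.eventually_nhds_iff.1 h1
  refine hF (funext_set (fun j => ball (f 0 j) ε)
    (fun j => infinite_of_mem_nhds _ (ball_mem_nhds _ hε)) fun y hy => ?_)
  rw [map_zero]
  exact H1 ((dist_pi_lt_iff hε).2 fun j => hy j trivial)

lemma disc_re (h : GA1 w Θ) : ∃ C : ℝ, ∀ (β : Cht M t) (B : ℝ) (p : Pt t a), Ch w β (Θ p) →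
    ‖co β (Θ p)‖ ≤ B → ‖reT p‖ ≤ |B * C| := by
  obtain ⟨C, hC, H⟩ := h.cmp
  refine ⟨C, fun β B p hβ hB => ?_⟩
  have hB0 : 0 ≤ B := (norm_nonneg _).trans hB
  have act : ∀ c, Θ p c = (w c).elim 1 (fun j => Complex.exp ((p (Fin.castAdd a j)).re : ℂ)) *
      Θ (p - reT p) c := fun c => by
    have := h.act (p - reT p) (fun j => ((p (Fin.castAdd a j)).re : ℂ)) c
    rwa [← reT, sub_add_cancel] at this
  have cmp := H (p - reT p) fun j => by simp [reT, inT]
  have key : ∀ b o, ‖Θ p b‖ ≤ B * ‖Θ p (β o)‖ := fun b o => by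
    have h1 := (norm_le_pi_norm (co β (Θ p)) (b, o)).trans hB
    rwa [co, norm_div, div_le_iff₀ (norm_pos_iff.2 (hβ o).2)] at h1
  have pos : 0 < ‖Θ (p - reT p)‖ := by
    obtain ⟨b, -, hb⟩ := h.blk (p - reT p) none
    exact (norm_pos_iff.2 hb).trans_le (norm_le_pi_norm _ b)
  refine (pi_norm_le_iff_of_nonneg (abs_nonneg _)).2 fun i => ?_
  refine Fin.addCases (fun j => ?_) (fun j => ?_) i
  · have e : ‖reT p (Fin.castAdd a j)‖ = |(p (Fin.castAdd a j)).re| := by simp [reT, inT]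
    rw [e]
    set s := (p (Fin.castAdd a j)).re with hs
    have ex : ‖Complex.exp (s : ℂ)‖ = Real.exp s := Complex.norm_exp_ofReal s
    have ep := Real.exp_pos s
    refine le_trans (abs_le.2 ⟨?_, ?_⟩) (le_abs_self _)
    · obtain ⟨b, hb, h1⟩ := cmp none
      have h2 := key b (some j)
      rw [act b, act (β (some j)), hb, (hβ _).1, Option.elim_none, Option.elim_some, one_mul,
        norm_mul, ← hs, ex] at h2
      have h3 := norm_le_pi_norm (Θ (p - reT p)) (β (some j))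
      have h4 : ‖Θ (p - reT p)‖ ≤ B * C * Real.exp s * ‖Θ (p - reT p)‖ := by
        calc ‖Θ (p - reT p)‖ ≤ C * (B * (Real.exp s * ‖Θ (p - reT p)‖)) :=
              h1.trans (mul_le_mul_of_nonneg_left (h2.trans (by gcongr)) (by linarith))
          _ = _ := by ring
      have h5 : 1 ≤ B * C * Real.exp s := (le_mul_iff_one_le_left pos).1 h4
      have h6 : Real.exp (-s) ≤ B * C := by
        rw [Real.exp_neg, inv_le_iff_one_le_mul₀ ep]
        exact h5
      linarith [Real.add_one_le_exp (-s)]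
    · obtain ⟨b, hb, h1⟩ := cmp (some j)
      have h2 := key b none
      rw [act b, act (β none), hb, (hβ _).1, Option.elim_none, Option.elim_some, one_mul,
        norm_mul, ← hs, ex] at h2
      have h3 := norm_le_pi_norm (Θ (p - reT p)) (β none)
      have h4 : Real.exp s * ‖Θ (p - reT p)‖ ≤ B * C * ‖Θ (p - reT p)‖ := by
        calc Real.exp s * ‖Θ (p - reT p)‖ ≤ C * (Real.exp s * ‖Θ (p - reT p) b‖) := by
              rw [mul_left_comm]; gcongr
          _ ≤ C * (B * ‖Θ (p - reT p)‖) :=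
              mul_le_mul_of_nonneg_left (h2.trans (by gcongr)) (by linarith)
          _ = _ := by ring
      linarith [Real.add_one_le_exp s, le_of_mul_le_mul_right h4 pos]
  · simp only [reT, inT, Fin.append_right, Pi.zero_apply, norm_zero, abs_nonneg]

theorem sPrp : SPrp := by
  intro t a M w Θ h
  have h1 : ∀ (β : Cht M t) (B : ℝ), ∃ L : ℝ, ∀ p, Ch w β (Θ p) → ‖co β (Θ p)‖ ≤ B →
      ∃ x ∈ Lam Θ, ‖p - x‖ ≤ L := fun β B => by
    obtain ⟨R, hR⟩ := h.per
    obtain ⟨C, hC⟩ := disc_re h.toGA1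
    refine ⟨R + |B * C|, fun p hβ hB => ?_⟩
    obtain ⟨x, hx, h2⟩ := hR p
    refine ⟨x, hx, ?_⟩
    have e : p - x = (p - reT p - x) + reT p := by abel
    rw [e]
    exact (norm_add_le _ _).trans (add_le_add h2 (hC β B p hβ hB))
  refine ⟨h1, fun p₀ b hb ε hε => ?_⟩
  obtain ⟨β, hβ⟩ := exists_ch (h.blk p₀)
  let r : Fin M → ℂ := fun c => Θ p₀ c / Θ p₀ b
  have r0 : ∀ o, r (β o) ≠ 0 := fun o => div_ne_zero (hβ o).2 hb
  have hc : ContinuousAt (co β : (Fin M → ℂ) → _) r := continuousAt_pi.2 fun x =>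
    (continuous_apply x.1).continuousAt.div (continuous_apply (β x.2)).continuousAt (r0 x.2)
  obtain ⟨δ, hδ, H⟩ := Metric.eventually_nhds_iff.1
    ((eventually_all.2 fun o => (continuous_apply (β o)).continuousAt.eventually_ne (r0 o)).and
      (hc.norm.eventually_lt_const (lt_add_one _)))
  obtain ⟨L, hL⟩ := h1 β (‖co β r‖ + 1)
  let K : Set (Pt t a) := closedBall 0 L ∩ ⋂ x ∈ Lam Θ, {u | ε ≤ ‖u - x - p₀‖}
  have hK : IsCompact K := (isCompact_closedBall 0 L).inter_right
    (isClosed_biInter fun x _ => isClosed_le continuous_const (by fun_prop))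
  have ct : ∀ c, Continuous fun u => Θ u c := fun c => (continuous_apply c).comp h.hol.continuous
  obtain ⟨m, hm, h2⟩ := hK.exists_forall_le' (f := fun u => ‖fun c => Θ u c - r c * Θ u b‖)
    (a := 0) (continuous_pi fun c => (ct c).sub (continuous_const.mul (ct b))).norm.continuousOn
    fun u hu => norm_pos_iff.2 fun h0 => by
      have h3 : u - p₀ ∈ Lam Θ := (h.par u p₀).1 ⟨Θ u b / Θ p₀ b, funext fun c => by
        rw [sub_eq_zero.1 (congrFun h0 c)]
        simp only [r, Pi.smul_apply, smul_eq_mul]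
        ring⟩
      have h4 : ε ≤ ‖u - (u - p₀) - p₀‖ := Set.mem_iInter₂.1 hu.2 _ h3
      simp only [sub_sub_cancel, sub_self, norm_zero] at h4
      linarith
  obtain ⟨N, hN⟩ := hK.exists_bound_of_continuousOn (ct b).continuousOn
  have hp : 0 < m / (|N| + 1) := by positivity
  refine ⟨min δ (m / (|N| + 1)), lt_min hδ hp, fun p hpb hr => ?_⟩
  obtain ⟨h3, h4⟩ := H (y := fun c => Θ p c / Θ p b)
    ((dist_pi_lt_iff hδ).2 fun c => (dist_eq_norm _ _).trans_lt ((hr c).trans_le (min_le_left _ _)))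
  have e : co β (fun c => Θ p c / Θ p b) = co β (Θ p) :=
    funext fun x => div_div_div_cancel_right₀ hpb _ _
  obtain ⟨x, hx, h5⟩ := hL p (fun o => ⟨(hβ o).1, (div_ne_zero_iff.1 (h3 o)).1⟩) (e ▸ h4.le)
  by_contra hn
  have hu : p - x ∈ K := by
    refine ⟨mem_closedBall_zero_iff.2 h5, Set.mem_iInter₂.2 fun y hy => ?_⟩
    change ε ≤ ‖p - x - y - p₀‖
    refine le_of_not_gt fun h6 => ?_
    refine hn ⟨x - (x - x - y), h.lsub _ hx _ (h.lsub _ (h.lsub _ hx _ hx) _ hy), ?_⟩
    have e' : p - (x - (x - x - y)) - p₀ = p - x - y - p₀ := by abel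
    rwa [e']
  obtain ⟨l, hl⟩ := (h.par p (p - x)).2 (by rwa [sub_sub_cancel])
  obtain ⟨l0, h6⟩ := disc_ratio h.toGA1 hl
  have hb' : Θ (p - x) b ≠ 0 := fun h0 => hpb (by rw [hl, Pi.smul_apply, h0, smul_zero])
  refine absurd (h2 _ hu) (not_le.2 ((pi_norm_lt_iff hm).2 fun c => ?_))
  have e' : Θ (p - x) c - r c * Θ (p - x) b = (Θ p c / Θ p b - r c) * Θ (p - x) b := by
    rw [h6, sub_mul, div_mul_cancel₀ _ hb']
  have h7 : ‖Θ p c / Θ p b - r c‖ < m / (|N| + 1) := (hr c).trans_le (min_le_right _ _)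
  have h8 := (hN _ hu).trans (le_abs_self N)
  rw [lt_div_iff₀ (by positivity)] at h7
  rw [e', norm_mul]
  exact lt_of_le_of_lt (by gcongr; linarith) h7

end Pool.Agent.MP_c69980_ag.H43
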